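import Pool.Agent.Helper98.TS.Upper

/-!
# A finite maximal code gives the setting `Fmc`
-/

set_option autoImplicit false

namespace Pool.Agent.Helper98.TS

open InformationTheory

variable {α : Type*}

theorem fmc_of_maximal {a b : α} (hab : a ≠ b) {C : Set (List α)} (hfin : C.Finite)
    (hC : UniquelyDecodable C) (hmax : ∀ D : Set (List α), C ⊆ D → UniquelyDecodable D → D = C) :
    ∃ n m : ℕ, Fmc a b C n m := by
  classical
  have hcomp : ∀ w : List α, ∃ l, Over C l ∧ w <:+: l.flatten := fun w => complete hC hmax hab w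
  obtain ⟨m, hm⟩ : ∃ m, ∀ x ∈ C, x.length ≤ m := by
    obtain ⟨m, hm⟩ := (hfin.image List.length).bddAbove
    exact ⟨m, fun x hx => hm (Set.mem_image_of_mem _ hx)⟩
  obtain ⟨l, hl, U, V, hUV⟩ := hcomp (List.replicate (2 * m + 1) a)
  obtain ⟨l1, y, l2, h1, h2, h3⟩ := cut l (U.length + m) (by
    rw [← hUV]
    simp only [List.length_append, List.length_replicate]
    omega)
  have hO := hl
  rw [h1] at hO
  obtain ⟨hO1, hO2⟩ := over_append.mp hO
  obtain ⟨hy, hO2⟩ := over_cons.mp hO2
  have hyl := hm y hy
  rw [h1, List.flatten_append, List.flatten_cons, List.append_assoc] at hUV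
  have h4 : ∃ u, l1.flatten = U ++ u ∧
      List.replicate (2 * m + 1) a ++ V = u ++ (y ++ l2.flatten) := by
    rcases List.append_eq_append_iff.mp hUV.symm with ⟨a', h5, h6⟩ | ⟨c', h5, h6⟩
    · have h7 : U.length = l1.flatten.length + a'.length := by rw [h5, List.length_append]
      have h8 : a' = [] := List.length_eq_zero_iff.mp (by omega)
      subst h8
      exact ⟨[], by rw [h5]; simp, by rw [List.nil_append, h6]; simp⟩
    · exact ⟨c', h5, h6⟩
  obtain ⟨u, h5, h6⟩ := h4
  have hul : l1.flatten.length = U.length + u.length := by rw [h5, List.length_append]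
  obtain ⟨h7, h8⟩ := block_split h6.symm (by omega)
  obtain ⟨h9, -⟩ := block_split h8 (by omega)
  have hyC : pw a y.length ∈ C := by rw [pw, ← h9]; exact hy
  have hyne : y ≠ [] := by
    rintro rfl
    exact hC.epsilon_not_mem hy
  refine ⟨y.length, m, hab, hC, hcomp, hm, List.length_pos_iff.mpr hyne, hyC, ?_⟩
  intro k hk
  have h10 : (List.replicate y.length (pw a k)).flatten =
      (List.replicate k (pw a y.length)).flatten := by
    rw [flatten_rep, flatten_rep, Nat.mul_comm]
  have h11 := hC _ _ (over_rep hk _) (over_rep hyC _) h10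
  have h12 := congrArg List.length h11
  simpa using h12.symm

/-- the finite set of the pairs `(i, j)` with `a^i b a^j` in the code -/
theorem exists_pairs {a b : α} (hab : a ≠ b) {C : Set (List α)} (hfin : C.Finite) :
    ∃ X : Finset (ℕ × ℕ), ∀ p, p ∈ X ↔ wd a b p ∈ C := by
  refine ⟨(hfin.preimage (wd_inj hab).injOn).toFinset, fun p => ?_⟩
  rw [Set.Finite.mem_toFinset, Set.mem_preimage]

end Pool.Agent.Helper98.TS
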