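import Pool.Agent.Helper98.TS.Complete

/-!
# Chains of words `a^i b a^j` in a finite maximal code
-/

set_option autoImplicit false

namespace Pool.Agent.Helper98.TS

open InformationTheory

variable {α : Type*}

/-- `a^i b a^j` -/
def wd (a b : α) (p : ℕ × ℕ) : List α := List.replicate p.1 a ++ b :: List.replicate p.2 a

/-- `a^n` -/
def pw (a : α) (n : ℕ) : List α := List.replicate n a

theorem flatten_rep (a : α) (n s : ℕ) :
    (List.replicate s (pw a n)).flatten = List.replicate (n * s) a := by
  induction s with
  | zero => simp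
  | succ s ih =>
    rw [List.replicate_succ, List.flatten_cons, ih, pw, ← List.replicate_add]
    congr 1
    ring

/-- comparison of two words that start with blocks of `a` -/
theorem rep_cons_inj {a b : α} (hab : a ≠ b) : ∀ (p q : ℕ) (w w' : List α),
    List.replicate p a ++ b :: w = List.replicate q a ++ b :: w' → p = q ∧ w = w' := by
  intro p
  induction p with
  | zero =>
    intro q w w' h
    cases q with
    | zero => simpa using h
    | succ q =>
      rw [List.replicate_succ] at h
      simp only [List.replicate_zero, List.nil_append, List.cons_append, List.cons.injEq] at h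
      exact absurd h.1.symm hab
  | succ p ih =>
    intro q w w' h
    cases q with
    | zero =>
      rw [List.replicate_succ] at h
      simp only [List.replicate_zero, List.nil_append, List.cons_append, List.cons.injEq] at h
      exact absurd h.1 hab
    | succ q =>
      rw [List.replicate_succ, List.replicate_succ] at h
      simp only [List.cons_append, List.cons.injEq, true_and] at h
      obtain ⟨h1, h2⟩ := ih q w w' h
      exact ⟨by rw [h1], h2⟩

theorem wd_inj {a b : α} (hab : a ≠ b) : Function.Injective (wd a b) := by
  intro p q h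
  obtain ⟨h1, h2⟩ := rep_cons_inj hab _ _ _ _ h
  have h3 := congrArg List.length h2
  simp only [List.length_replicate] at h3
  exact Prod.ext h1 h3

/-- setting: a finite maximal code with `a^n` in it, word lengths at most `m` -/
structure Fmc (a b : α) (C : Set (List α)) (n m : ℕ) : Prop where
  ab : a ≠ b
  code : UniquelyDecodable C
  comp : ∀ w : List α, ∃ l, Over C l ∧ w <:+: l.flatten
  len : ∀ x ∈ C, x.length ≤ m
  pos : 0 < n
  pown : pw a n ∈ C
  uniq : ∀ k, pw a k ∈ C → k = n

/-- a product of words of the code which is a power of `a` -/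
theorem Fmc.dvd {a b : α} {C : Set (List α)} {n m : ℕ} (h : Fmc a b C n m) :
    ∀ (l : List (List α)) (e : ℕ), Over C l → l.flatten = List.replicate e a → n ∣ e := by
  intro l
  induction l with
  | nil =>
    intro e _ he
    have := congrArg List.length he
    simp only [List.flatten_nil, List.length_nil, List.length_replicate] at this
    rw [← this]
    exact dvd_zero n
  | cons x l ih =>
    intro e hl he
    rw [List.flatten_cons] at he
    obtain ⟨h1, h2⟩ := over_cons.mp hl
    have h3 : x.length + l.flatten.length = e ∧ x = List.replicate x.length a ∧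
        l.flatten = List.replicate l.flatten.length a := List.append_eq_replicate_iff.mp he
    have h4 : x.length = n := h.uniq _ (by rw [pw, ← h3.2.1]; exact h1)
    have h5 := ih l.flatten.length h2 h3.2.2
    rw [← h3.1, h4]
    exact (Nat.dvd_refl n).add h5

/-- the factor which contains the position `k` -/
theorem cut : ∀ (l : List (List α)) (k : ℕ), k < l.flatten.length →
    ∃ (l1 : List (List α)) (y : List α) (l2 : List (List α)), l = l1 ++ y :: l2 ∧
      l1.flatten.length ≤ k ∧ k < l1.flatten.length + y.length := by
  intro l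
  induction l with
  | nil => intro k hk; simp at hk
  | cons x l ih =>
    intro k hk
    rcases Nat.lt_or_ge k x.length with h | h
    · exact ⟨[], x, l, rfl, by simp, by simpa using h⟩
    · rw [List.flatten_cons, List.length_append] at hk
      obtain ⟨l1, y, l2, h1, h2, h3⟩ := ih (k - x.length) (by omega)
      refine ⟨x :: l1, y, l2, by rw [h1]; rfl, ?_, ?_⟩
      · rw [List.flatten_cons, List.length_append]; omega
      · rw [List.flatten_cons, List.length_append]; omega

/-- a beginning of a word that starts with a block of `a` -/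
theorem block_split {a : α} {u v R : List α} {E : ℕ} (h : u ++ v = List.replicate E a ++ R)
    (hu : u.length ≤ E) : u = List.replicate u.length a ∧ v = List.replicate (E - u.length) a ++ R := by
  have h1 : u ++ v = List.replicate u.length a ++ (List.replicate (E - u.length) a ++ R) := by
    rw [h, ← List.append_assoc, ← List.replicate_add]
    congr 2
    omega
  exact List.append_inj h1 (by simp)

/-- the word of the code that contains a `b` between long blocks of `a` -/
theorem Fmc.step {a b : α} {C : Set (List α)} {n m : ℕ} (h : Fmc a b C n m)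
    (l : List (List α)) (T R : List α) (E M : ℕ) (hl : Over C l) (hE : m ≤ E) (hM : m ≤ M)
    (hf : l.flatten = T ++ (List.replicate E a ++ b :: (List.replicate M a ++ R))) :
    ∃ (l1 l2 : List (List α)) (p : ℕ × ℕ), Over C l1 ∧ Over C l2 ∧ wd a b p ∈ C ∧ p.1 ≤ E ∧
      l1.flatten = T ++ List.replicate (E - p.1) a ∧ p.2 ≤ m ∧
      l2.flatten = List.replicate (M - p.2) a ++ R := by
  obtain ⟨l1, y, l2, h1, h2, h3⟩ := cut l (T.length + E) (by
    rw [hf]
    simp only [List.length_append, List.length_replicate, List.length_cons]
    omega)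
  have hO := hl
  rw [h1] at hO
  obtain ⟨hO1, hO2⟩ := over_append.mp hO
  obtain ⟨hy, hO2⟩ := over_cons.mp hO2
  have hyl := h.len y hy
  rw [h1, List.flatten_append, List.flatten_cons] at hf
  have h4 : ∃ u, l1.flatten = T ++ u ∧
      List.replicate E a ++ b :: (List.replicate M a ++ R) = u ++ (y ++ l2.flatten) := by
    rcases List.append_eq_append_iff.mp hf with ⟨a', h5, h6⟩ | ⟨c', h5, h6⟩
    · have h7 : T.length = l1.flatten.length + a'.length := by rw [h5, List.length_append]
      have h8 : a' = [] := List.length_eq_zero_iff.mp (by omega)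
      subst h8
      exact ⟨[], by rw [h5]; simp, by rw [List.nil_append, h6]; simp⟩
    · exact ⟨c', h5, h6⟩
  obtain ⟨u, h5, h6⟩ := h4
  have hul : l1.flatten.length = T.length + u.length := by rw [h5, List.length_append]
  obtain ⟨h7, h8⟩ := block_split (R := b :: (List.replicate M a ++ R)) h6.symm (by omega)
  -- `y` starts with `a^i b`
  have h9 : ∃ y', y = List.replicate (E - u.length) a ++ b :: y' ∧
      y' ++ l2.flatten = List.replicate M a ++ R := by
    rcases List.append_eq_append_iff.mp h8 with ⟨a', h10, h11⟩ | ⟨c', h10, h11⟩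
    · exfalso
      have := congrArg List.length h10
      simp only [List.length_append, List.length_replicate] at this
      omega
    · cases c' with
      | nil =>
        exfalso
        have := congrArg List.length h10
        simp only [List.length_append, List.length_replicate, List.length_nil] at this
        omega
      | cons c y' =>
        rw [List.cons_append, List.cons.injEq] at h11
        exact ⟨y', by rw [h10, h11.1], h11.2.symm⟩
  obtain ⟨y', h10, h11⟩ := h9
  have hy'l : y'.length ≤ m := by
    have := congrArg List.length h10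
    simp only [List.length_append, List.length_replicate, List.length_cons] at this
    omega
  obtain ⟨h12, h13⟩ := block_split h11 (by omega)
  refine ⟨l1, l2, (E - u.length, y'.length), hO1, hO2, ?_, by simp, ?_, hy'l, h13⟩
  · rw [wd, ← h12, ← h10]; exact hy
  · rw [h5]
    congr 1
    rw [h7]
    congr 1
    simp only [List.length_replicate]
    omega

/-- the word `b a^(M 0) b a^(M 1) ... b a^(M (L - 1))` -/
def Wd (a b : α) {L : ℕ} (M : Fin L → ℕ) : List α :=
  (List.ofFn fun l => b :: List.replicate (M l) a).flatten

theorem Wd_succ (a b : α) {L : ℕ} (M : Fin (L + 1) → ℕ) :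
    Wd a b M = b :: (List.replicate (M 0) a ++ Wd a b fun l => M l.succ) := by
  rw [Wd, List.ofFn_succ, List.flatten_cons, List.cons_append, Wd]

/-- existence of chains, word starting with a block of `a` -/
theorem Fmc.chain {a b : α} {C : Set (List α)} {n m : ℕ} (h : Fmc a b C n m) :
    ∀ (L : ℕ) (M : Fin (L + 1) → ℕ) (l : List (List α)) (R : List α) (E : ℕ), Over C l →
      (∀ l, 2 * m ≤ M l) → m ≤ E → l.flatten = List.replicate E a ++ (Wd a b M ++ R) →
      ∃ x : Fin (L + 1) → ℕ × ℕ, (∀ l, wd a b (x l) ∈ C) ∧ (((x 0).1 : ℕ) : ZMod n) = (E : ZMod n) ∧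
        ∀ l : Fin L, (((x l.castSucc).2 : ℕ) : ZMod n) + (((x l.succ).1 : ℕ) : ZMod n) =
          ((M l.castSucc : ℕ) : ZMod n) := by
  intro L
  induction L with
  | zero =>
    intro M l R E hl hM hE hf
    rw [Wd_succ, List.cons_append, List.append_assoc] at hf
    obtain ⟨l1, l2, p, h1, h2, h3, h4, h5, h6, h7⟩ := h.step l [] _ E (M 0) hl hE
      (by have := hM 0; omega) (by rw [List.nil_append]; exact hf)
    refine ⟨fun _ => p, fun _ => h3, ?_, fun l => l.elim0⟩
    have h8 := h.dvd l1 (E - p.1) h1 (by rw [h5, List.nil_append])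
    have h10 : (((E - p.1 : ℕ)) : ZMod n) = 0 := (ZMod.natCast_eq_zero_iff _ _).mpr h8
    have h9 : (E : ZMod n) = ((p.1 + (E - p.1) : ℕ) : ZMod n) := by
      congr 1; omega
    rw [h9, Nat.cast_add, h10, add_zero]
  | succ L ih =>
    intro M l R E hl hM hE hf
    rw [Wd_succ, List.cons_append, List.append_assoc] at hf
    obtain ⟨l1, l2, p, h1, h2, h3, h4, h5, h6, h7⟩ := h.step l [] _ E (M 0) hl hE
      (by have := hM 0; omega) (by rw [List.nil_append]; exact hf)
    have hM0 := hM 0
    obtain ⟨x, h11, h12, h13⟩ := ih (fun l => M l.succ) l2 R (M 0 - p.2) h2 (fun l => hM l.succ)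
      (by omega) h7
    have h8 := h.dvd l1 (E - p.1) h1 (by rw [h5, List.nil_append])
    have h10 : (((E - p.1 : ℕ)) : ZMod n) = 0 := (ZMod.natCast_eq_zero_iff _ _).mpr h8
    refine ⟨Fin.cons p x, ?_, ?_, ?_⟩
    · intro l
      refine Fin.cases ?_ (fun l => ?_) l
      · exact h3
      · exact h11 l
    · rw [Fin.cons_zero]
      have h9 : (E : ZMod n) = ((p.1 + (E - p.1) : ℕ) : ZMod n) := by
        congr 1; omega
      rw [h9, Nat.cast_add, h10, add_zero]
    · intro l
      refine Fin.cases ?_ (fun l => ?_) l
      · rw [Fin.castSucc_zero, Fin.cons_zero, Fin.cons_succ, h12, ← Nat.cast_add]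
        congr 1
        omega
      · rw [Fin.cons_succ]
        have : (Fin.succ l).castSucc = (l.castSucc).succ := rfl
        rw [this, Fin.cons_succ]
        exact h13 l

/-- (L): for all labels there is a chain -/
theorem Fmc.lower {a b : α} {C : Set (List α)} {n m : ℕ} (h : Fmc a b C n m) (L : ℕ)
    (k : Fin L → ZMod n) : ∃ x : Fin (L + 1) → ℕ × ℕ, (∀ l, wd a b (x l) ∈ C) ∧
      ∀ l : Fin L, (((x l.castSucc).2 : ℕ) : ZMod n) + (((x l.succ).1 : ℕ) : ZMod n) = k l := by
  have : NeZero n := ⟨h.pos.ne'⟩
  set M : Fin (L + 1) → ℕ := fun l => n * (2 * m) + (Fin.snoc (α := fun _ => ZMod n) k 0 l).val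
    with hM
  have hM2 : ∀ l, 2 * m ≤ M l := by
    intro l
    have : 2 * m ≤ n * (2 * m) := Nat.le_mul_of_pos_left _ h.pos
    simp only [hM]
    omega
  obtain ⟨l, hl, U, V, hUV⟩ := h.comp (List.replicate m a ++ (Wd a b M))
  -- split at the first `b`
  rw [Wd_succ] at hUV
  have hf : l.flatten = U ++ (List.replicate m a ++ b :: (List.replicate (M 0) a ++
      ((Wd a b fun l => M l.succ) ++ V))) := by
    rw [← hUV]
    simp only [List.append_assoc, List.cons_append]
  obtain ⟨l1, l2, p, h1, h2, h3, h4, h5, h6, h7⟩ := h.step l U _ m (M 0) hl (le_refl _)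
      (by have := hM2 0; omega) hf
  cases L with
  | zero => exact ⟨fun _ => p, fun _ => h3, fun l => l.elim0⟩
  | succ L =>
    have hM0 := hM2 0
    obtain ⟨x, h11, h12, h13⟩ := h.chain L (fun l => M l.succ) l2 V (M 0 - p.2) h2
      (fun l => hM2 l.succ) (by omega) h7
    have hcast : ∀ l : Fin (L + 1), ((M l.castSucc : ℕ) : ZMod n) = k l := by
      intro l
      simp only [hM, Fin.snoc_castSucc]
      rw [Nat.cast_add, Nat.cast_mul, ZMod.natCast_self, zero_mul, zero_add, ZMod.natCast_zmod_val]
    refine ⟨Fin.cons p x, ?_, ?_⟩
    · intro l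
      refine Fin.cases ?_ (fun l => ?_) l
      · exact h3
      · exact h11 l
    · intro l
      rw [← hcast]
      refine Fin.cases ?_ (fun l => ?_) l
      · rw [Fin.castSucc_zero, Fin.cons_zero, Fin.cons_succ, h12, ← Nat.cast_add]
        congr 1
        omega
      · rw [Fin.cons_succ]
        have : (Fin.succ l).castSucc = (l.castSucc).succ := rfl
        rw [this, Fin.cons_succ]
        exact h13 l

end Pool.Agent.Helper98.TS
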