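import Mathlib

/-!
# Maximal codes are complete (Schützenberger)
-/

set_option autoImplicit false

namespace Pool.Agent.Helper98.TS

open InformationTheory

variable {α : Type*}

/-- every word of the list is in `C` -/
def Over (C : Set (List α)) (l : List (List α)) : Prop := ∀ x ∈ l, x ∈ C

theorem over_nil (C : Set (List α)) : Over C [] := fun _ h => absurd h List.not_mem_nil

theorem over_append {C : Set (List α)} {l l' : List (List α)} :
    Over C (l ++ l') ↔ Over C l ∧ Over C l' := by
  unfold Over
  constructor
  · intro h
    exact ⟨fun x hx => h x (List.mem_append_left _ hx), fun x hx => h x (List.mem_append_right _ hx)⟩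
  · rintro ⟨h1, h2⟩ x hx
    rcases List.mem_append.mp hx with h | h
    · exact h1 x h
    · exact h2 x h

theorem over_cons {C : Set (List α)} {x : List α} {l : List (List α)} :
    Over C (x :: l) ↔ x ∈ C ∧ Over C l := by
  unfold Over
  simp

/-- the word without borders -/
def ub (w : List α) (c d : α) : List α := w ++ c :: List.replicate w.length d

theorem ub_length (w : List α) (c d : α) : (ub w c d).length = 2 * w.length + 1 := by
  simp [ub]; omega

theorem ub_mid (w : List α) (c d : α) : (ub w c d)[w.length]? = some c := by
  unfold ub
  rw [List.getElem?_append_right (le_refl _)]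
  simp

theorem ub_end (w : List α) (c d : α) (i : ℕ) (h1 : w.length < i) (h2 : i ≤ 2 * w.length) :
    (ub w c d)[i]? = some d := by
  unfold ub
  rw [List.getElem?_append_right h1.le]
  obtain ⟨k, hk⟩ : ∃ k, i - w.length = k + 1 := ⟨i - w.length - 1, by omega⟩
  rw [hk, List.getElem?_cons_succ, List.getElem?_replicate]
  rw [if_pos (by omega)]

theorem ub_head (w : List α) (c d : α) (h : w.head? = some c) : (ub w c d)[0]? = some c := by
  unfold ub
  cases w with
  | nil => simp at h
  | cons e w => simpa using h

/-- two occurrences of the word do not overlap -/
theorem no_overlap {w : List α} {c d : α} (hcd : c ≠ d) (hw : w.head? = some c)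
    {U V Z V' : List α} (h : U ++ (ub w c d ++ V) = Z ++ (ub w c d ++ V'))
    (h1 : U.length < Z.length) (h2 : Z.length < U.length + (ub w c d).length) : False := by
  set y := ub w c d with hy
  have key : ∀ i δ, Z.length = U.length + δ → δ + i < y.length → y[δ + i]? = y[i]? := by
    intro i δ hδ hi
    have e1 : (U ++ (y ++ V))[U.length + (δ + i)]? = y[δ + i]? := by
      rw [List.getElem?_append_right (by omega), Nat.add_sub_cancel_left,
        List.getElem?_append_left hi]
    have e2 : (Z ++ (y ++ V'))[Z.length + i]? = y[i]? := by
      rw [List.getElem?_append_right (by omega), Nat.add_sub_cancel_left,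
        List.getElem?_append_left (by omega)]
    rw [← e1, ← e2, h]
    congr 1
    omega
  obtain ⟨δ, hδ⟩ : ∃ δ, Z.length = U.length + δ := ⟨Z.length - U.length, by omega⟩
  have hl : y.length = 2 * w.length + 1 := ub_length w c d
  rcases Nat.lt_or_ge w.length δ with h3 | h3
  · have := key 0 δ hδ (by omega)
    rw [Nat.add_zero, hy, ub_head w c d hw, ub_end w c d δ h3 (by omega)] at this
    exact hcd (Option.some.inj this).symm
  · have := key w.length δ hδ (by omega)
    rw [hy, ub_mid, ub_end w c d (δ + w.length) (by omega) (by omega)] at this
    exact hcd (Option.some.inj this).symm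

/-- an occurrence of the word `y` in a product of words of `C ∪ {y}` is one of the factors -/
theorem occ {C : Set (List α)} {w : List α} {c d : α} (hcd : c ≠ d) (hw : w.head? = some c)
    (hn : ∀ l, Over C l → ¬ ub w c d <:+: l.flatten) :
    ∀ (k : ℕ) (l : List (List α)), l.length ≤ k → Over (insert (ub w c d) C) l →
      ∀ U V, l.flatten = U ++ (ub w c d ++ V) →
      ∃ l1 l2, l = l1 ++ ub w c d :: l2 ∧ l1.flatten = U := by
  classical
  set y := ub w c d with hy
  intro k
  induction k with
  | zero =>
    intro l hl _ U V h
    have : l = [] := List.length_eq_zero_iff.mp (by omega)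
    subst this
    exact absurd ⟨U, V, by rw [← List.append_assoc] at h; exact h.symm⟩ (hn [] (over_nil C))
  | succ k ih =>
    intro l hl hO U V h
    by_cases hC : Over C l
    · exact absurd ⟨U, V, by rw [← List.append_assoc] at h; exact h.symm⟩ (hn l hC)
    · -- split at the first factor `y`
      have hmem : y ∈ l := by
        by_contra hcon
        apply hC
        intro x hx
        rcases hO x hx with h1 | h1
        · rw [h1] at hx; exact absurd hx hcon
        · exact h1
      obtain ⟨z, r, hz, hlr⟩ := List.eq_append_cons_of_mem hmem
      have hzC : Over C z := by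
        intro x hx
        have : x ∈ l := by rw [hz]; exact List.mem_append_left _ hx
        rcases hO x this with h1 | h1
        · rw [h1] at hx; exact absurd hx hlr
        · exact h1
      have hrO : Over (insert y C) r := by
        intro x hx
        exact hO x (by rw [hz]; exact List.mem_append_right _ (List.mem_cons_of_mem _ hx))
      have hfl : U ++ (y ++ V) = z.flatten ++ (y ++ r.flatten) := by
        rw [← h, hz, List.flatten_append, List.flatten_cons]
      rcases Nat.lt_trichotomy U.length z.flatten.length with h1 | h1 | h1
      · exfalso
        rcases Nat.lt_or_ge z.flatten.length (U.length + y.length) with h2 | h2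
        · exact no_overlap hcd hw hfl h1 h2
        · -- `y` is a factor of `z.flatten`
          apply hn z hzC
          have h3 : (U ++ y) ++ V = z.flatten ++ (y ++ r.flatten) := by
            rw [List.append_assoc]; exact hfl
          have h4 : (U ++ y) <+: z.flatten := by
            apply List.prefix_of_prefix_length_le (l₃ := z.flatten ++ (y ++ r.flatten))
            · exact ⟨V, h3⟩
            · exact List.prefix_append _ _
            · rw [List.length_append]; exact h2
          obtain ⟨t, ht⟩ := h4
          exact ⟨U, t, ht⟩
      · refine ⟨z, r, hz, ?_⟩
        exact (List.append_inj_left hfl h1).symm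
      · rcases Nat.lt_or_ge U.length (z.flatten.length + y.length) with h2 | h2
        · exact absurd (no_overlap hcd hw hfl.symm h1 h2) id
        · have h3 : U ++ (y ++ V) = (z.flatten ++ y) ++ r.flatten := by
            rw [List.append_assoc]; exact hfl
          have h4 : (z.flatten ++ y) <+: U := by
            apply List.prefix_of_prefix_length_le (l₃ := U ++ (y ++ V))
            · exact ⟨r.flatten, h3.symm⟩
            · exact List.prefix_append _ _
            · rw [List.length_append]; exact h2
          obtain ⟨U', hU'⟩ := h4
          have h5 : r.flatten = U' ++ (y ++ V) := by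
            rw [← hU', List.append_assoc (z.flatten ++ y)] at h3
            exact (List.append_cancel_left h3).symm
          have h6 : r.length ≤ k := by
            have : l.length = z.length + (r.length + 1) := by rw [hz]; simp
            omega
          obtain ⟨l1, l2, h7, h8⟩ := ih r h6 hrO U' V h5
          refine ⟨z ++ y :: l1, l2, ?_, ?_⟩
          · rw [hz, h7]; simp
          · rw [List.flatten_append, List.flatten_cons, h8, ← List.append_assoc]; exact hU'

/-- adding the word to the code gives a code -/
theorem ud_insert {C : Set (List α)} (hC : UniquelyDecodable C) {w : List α} {c d : α}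
    (hcd : c ≠ d) (hw : w.head? = some c) (hn : ∀ l, Over C l → ¬ ub w c d <:+: l.flatten) :
    UniquelyDecodable (insert (ub w c d) C) := by
  classical
  set y := ub w c d with hy
  have hmemC : ∀ l, Over (insert y C) l → y ∉ l → Over C l := by
    intro l hl hy' x hx
    rcases hl x hx with h1 | h1
    · rw [h1] at hx; exact absurd hx hy'
    · exact h1
  have hinf : ∀ l : List (List α), y ∈ l → y <:+: l.flatten := by
    intro l hl
    obtain ⟨s, t, hst⟩ := List.append_of_mem hl
    exact ⟨s.flatten, t.flatten, by rw [hst]; simp⟩
  have main : ∀ (k : ℕ) (l l' : List (List α)), l.length ≤ k → Over (insert y C) l →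
      Over (insert y C) l' → l.flatten = l'.flatten → l = l' := by
    intro k
    induction k with
    | zero =>
      intro l l' hl hO hO' h
      have hl0 : l = [] := List.length_eq_zero_iff.mp (by omega)
      subst hl0
      have h1 : y ∉ l' := by
        intro h1
        apply hn [] (over_nil C)
        rw [h]
        exact hinf l' h1
      exact hC [] l' (over_nil C) (hmemC l' hO' h1) h
    | succ k ih =>
      intro l l' hl hO hO' h
      by_cases hy1 : y ∈ l
      · obtain ⟨z, r, hz, hlr⟩ := List.eq_append_cons_of_mem hy1
        have hzO : Over (insert y C) z := by
          intro x hx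
          exact hO x (by rw [hz]; exact List.mem_append_left _ hx)
        have hzC : Over C z := hmemC z hzO hlr
        have hrO : Over (insert y C) r := by
          intro x hx
          exact hO x (by rw [hz]; exact List.mem_append_right _ (List.mem_cons_of_mem _ hx))
        have h1 : l'.flatten = z.flatten ++ (y ++ r.flatten) := by
          rw [← h, hz, List.flatten_append, List.flatten_cons]
        obtain ⟨l1, l2, h2, h3⟩ := occ hcd hw hn l'.length l' (le_refl _) hO' _ _ h1
        have h4 : Over (insert y C) l1 ∧ Over (insert y C) (y :: l2) := by
          rw [h2] at hO'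
          exact over_append.mp hO'
        have h5 : y ∉ l1 := by
          intro h5
          apply hn z hzC
          rw [← h3]
          exact hinf l1 h5
        have h6 : l1 = z := hC l1 z (hmemC l1 h4.1 h5) hzC h3
        have h7 : r.flatten = l2.flatten := by
          rw [h2, List.flatten_append, List.flatten_cons, h3] at h1
          have := List.append_cancel_left h1
          exact (List.append_cancel_left this).symm
        have h8 : r.length ≤ k := by
          have : l.length = z.length + (r.length + 1) := by rw [hz]; simp
          omega
        have h9 := ih r l2 h8 hrO (over_cons.mp h4.2).2 h7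
        rw [hz, h2, h6, h9]
      · have h1 : Over C l := hmemC l hO hy1
        have h2 : y ∉ l' := by
          intro h2
          apply hn l h1
          rw [h]
          exact hinf l' h2
        exact hC l l' h1 (hmemC l' hO' h2) h
  intro l l' hl hl' h
  exact main l.length l l' (le_refl _) hl hl' h

/-- Schützenberger: a maximal code is complete. -/
theorem complete {C : Set (List α)} (hC : UniquelyDecodable C)
    (hmax : ∀ D, C ⊆ D → UniquelyDecodable D → D = C) {a b : α} (hab : a ≠ b) (w : List α) :
    ∃ l, Over C l ∧ w <:+: l.flatten := by
  classical
  by_contra hcon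
  push Not at hcon
  cases w with
  | nil => exact hcon [] (over_nil C) (List.nil_infix)
  | cons c w' =>
    obtain ⟨d, hd⟩ : ∃ d, c ≠ d := by
      by_cases h : c = a
      · exact ⟨b, by rw [h]; exact hab⟩
      · exact ⟨a, h⟩
    set w := c :: w' with hw
    have hwy : w <:+: ub w c d := ⟨[], c :: List.replicate w.length d, rfl⟩
    have hn : ∀ l, Over C l → ¬ ub w c d <:+: l.flatten := fun l hl h =>
      hcon l hl (hwy.trans h)
    have h1 := ud_insert hC hd (w := w) rfl hn
    have h2 := hmax _ (Set.subset_insert _ _) h1
    have h3 : ub w c d ∈ C := by
      rw [← h2]; exact Set.mem_insert _ _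
    refine hn [ub w c d] ?_ (by simp)
    intro x hx
    rw [List.mem_singleton.mp hx]
    exact h3

end Pool.Agent.Helper98.TS
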