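import Pool.Agent.Helper98.TS.Chain

/-!
# A chain of words `a^i b a^j` is determined by its labels and its two ends
-/

set_option autoImplicit false

namespace Pool.Agent.Helper98.TS

open InformationTheory

variable {α : Type*}

/-- the compatibility of a chain with given block lengths -/
structure Vd (n : ℕ) {L : ℕ} (E : ℕ) (M : Fin (L + 1) → ℕ) (x : Fin (L + 1) → ℕ × ℕ) : Prop where
  h0 : (x 0).1 ≤ E ∧ n ∣ E - (x 0).1
  hl : ∀ l : Fin L, (x l.castSucc).2 + (x l.succ).1 ≤ M l.castSucc ∧
    n ∣ M l.castSucc - ((x l.castSucc).2 + (x l.succ).1)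
  hn : (x (Fin.last L)).2 ≤ M (Fin.last L) ∧ n ∣ M (Fin.last L) - (x (Fin.last L)).2

open Classical in
theorem filter_rep {a b : α} (hab : a ≠ b) (n s : ℕ) :
    (List.replicate s (pw a n)).filter (fun w => decide (b ∈ w)) = [] := by
  rw [List.filter_eq_nil_iff]
  intro w hw
  rw [List.eq_of_mem_replicate hw]
  simp only [decide_eq_true_eq]
  intro hb
  exact hab (List.eq_of_mem_replicate hb).symm

theorem over_rep {a : α} {C : Set (List α)} {n : ℕ} (h : pw a n ∈ C) (s : ℕ) :
    Over C (List.replicate s (pw a n)) := by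
  intro x hx
  rw [List.eq_of_mem_replicate hx]
  exact h

theorem mem_wd (a b : α) (p : ℕ × ℕ) : b ∈ wd a b p := by
  unfold wd
  simp

open Classical in
theorem build {a b : α} (hab : a ≠ b) {C : Set (List α)} {n : ℕ} (hn : 0 < n) (hp : pw a n ∈ C) :
    ∀ (L : ℕ) (x : Fin (L + 1) → ℕ × ℕ) (M : Fin (L + 1) → ℕ) (E : ℕ), (∀ l, wd a b (x l) ∈ C) →
      Vd n E M x → ∃ l : List (List α), Over C l ∧
        l.flatten = List.replicate E a ++ Wd a b M ∧
        l.filter (fun w => decide (b ∈ w)) = List.ofFn fun l => wd a b (x l) := by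
  intro L
  induction L with
  | zero =>
    intro x M E hx hV
    obtain ⟨⟨h1, s, h2⟩, -, ⟨h3, t, h4⟩⟩ := hV
    have h3' : (x 0).2 ≤ M 0 := h3
    have h4' : M 0 - (x 0).2 = n * t := h4
    refine ⟨List.replicate s (pw a n) ++ wd a b (x 0) :: List.replicate t (pw a n), ?_, ?_, ?_⟩
    · exact over_append.mpr ⟨over_rep hp s, over_cons.mpr ⟨hx 0, over_rep hp t⟩⟩
    · rw [List.flatten_append, List.flatten_cons, flatten_rep, flatten_rep, Wd_succ, ← h2, ← h4']
      have e1 : List.replicate E a = List.replicate (E - (x 0).1) a ++ List.replicate (x 0).1 a := by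
        rw [← List.replicate_add]
        congr 1
        omega
      have e2 : List.replicate (M 0) a =
          List.replicate (x 0).2 a ++ List.replicate (M 0 - (x 0).2) a := by
        rw [← List.replicate_add]
        congr 1
        omega
      rw [e1, e2, wd]
      simp only [List.append_assoc, List.cons_append]
      simp only [Wd, List.ofFn_zero, List.flatten_nil, List.append_nil]
    · rw [List.filter_append, List.filter_cons, filter_rep hab, filter_rep hab]
      simp [mem_wd]
  | succ L ih =>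
    intro x M E hx hV
    obtain ⟨⟨h1, s, h2⟩, h5, ⟨h3, h4⟩⟩ := hV
    have h50 := h5 0
    rw [Fin.castSucc_zero] at h50
    obtain ⟨l', h6, h7, h8⟩ := ih (fun l => x l.succ) (fun l => M l.succ) (M 0 - (x 0).2)
      (fun l => hx l.succ) ⟨⟨by have := h50.1; omega, by
        have h51 := h50.2
        have : M 0 - (x 0).2 - (x (Fin.succ 0)).1 = M 0 - ((x 0).2 + (x (Fin.succ 0)).1) := by omega
        rw [this]; exact h51⟩, fun l => h5 l.succ, ⟨h3, h4⟩⟩
    refine ⟨List.replicate s (pw a n) ++ wd a b (x 0) :: l', ?_, ?_, ?_⟩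
    · exact over_append.mpr ⟨over_rep hp s, over_cons.mpr ⟨hx 0, h6⟩⟩
    · rw [List.flatten_append, List.flatten_cons, flatten_rep, h7, Wd_succ a b M, ← h2]
      have e1 : List.replicate E a = List.replicate (E - (x 0).1) a ++ List.replicate (x 0).1 a := by
        rw [← List.replicate_add]
        congr 1
        omega
      have e2 : List.replicate (M 0) a =
          List.replicate (x 0).2 a ++ List.replicate (M 0 - (x 0).2) a := by
        have := h50.1
        rw [← List.replicate_add]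
        congr 1
        omega
      rw [e1, e2, wd]
      simp only [List.append_assoc, List.cons_append]
    · rw [List.filter_append, List.filter_cons, filter_rep hab, h8, List.ofFn_succ]
      simp [mem_wd]

/-- (U): a chain is determined by its labels and its two ends -/
theorem Fmc.upper {a b : α} {C : Set (List α)} {n m : ℕ} (h : Fmc a b C n m) (L : ℕ)
    (x y : Fin (L + 1) → ℕ × ℕ) (hx : ∀ l, wd a b (x l) ∈ C) (hy : ∀ l, wd a b (y l) ∈ C)
    (h0 : (((x 0).1 : ℕ) : ZMod n) = (((y 0).1 : ℕ) : ZMod n))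
    (hl : ∀ l : Fin L, (((x l.castSucc).2 : ℕ) : ZMod n) + (((x l.succ).1 : ℕ) : ZMod n) =
      (((y l.castSucc).2 : ℕ) : ZMod n) + (((y l.succ).1 : ℕ) : ZMod n))
    (hlast : (((x (Fin.last L)).2 : ℕ) : ZMod n) = (((y (Fin.last L)).2 : ℕ) : ZMod n)) :
    x = y := by
  classical
  have : NeZero n := ⟨h.pos.ne'⟩
  -- the block lengths
  set k : Fin (L + 1) → ZMod n := Fin.snoc (α := fun _ => ZMod n)
    (fun l : Fin L => (((x l.castSucc).2 : ℕ) : ZMod n) + (((x l.succ).1 : ℕ) : ZMod n))
    (((x (Fin.last L)).2 : ℕ) : ZMod n) with hk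
  set M : Fin (L + 1) → ℕ := fun l => n * (2 * m) + (k l).val with hM
  set E : ℕ := n * (2 * m) + ((((x 0).1 : ℕ) : ZMod n)).val with hE
  have hlen : ∀ p : ℕ × ℕ, wd a b p ∈ C → p.1 ≤ m ∧ p.2 ≤ m := by
    intro p hp
    have := h.len _ hp
    unfold wd at this
    simp only [List.length_append, List.length_replicate, List.length_cons] at this
    omega
  have hbig : ∀ (s : ℕ) (z : ZMod n), s ≤ 2 * m → ((s : ℕ) : ZMod n) = z →
      s ≤ n * (2 * m) + z.val ∧ n ∣ n * (2 * m) + z.val - s := by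
    intro s z hs hz
    have h1 : 2 * m ≤ n * (2 * m) := Nat.le_mul_of_pos_left _ h.pos
    have h2 : s ≤ n * (2 * m) + z.val := by omega
    refine ⟨h2, ?_⟩
    rw [← ZMod.natCast_eq_zero_iff, Nat.cast_sub h2, Nat.cast_add, Nat.cast_mul,
      ZMod.natCast_self, zero_mul, zero_add, ZMod.natCast_zmod_val, hz, sub_self]
  have hV : ∀ z : Fin (L + 1) → ℕ × ℕ, (∀ l, wd a b (z l) ∈ C) →
      (((z 0).1 : ℕ) : ZMod n) = (((x 0).1 : ℕ) : ZMod n) →
      (∀ l : Fin L, (((z l.castSucc).2 : ℕ) : ZMod n) + (((z l.succ).1 : ℕ) : ZMod n) =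
        (((x l.castSucc).2 : ℕ) : ZMod n) + (((x l.succ).1 : ℕ) : ZMod n)) →
      (((z (Fin.last L)).2 : ℕ) : ZMod n) = (((x (Fin.last L)).2 : ℕ) : ZMod n) →
      Vd n E M z := by
    intro z hz h1 h2 h3
    refine ⟨?_, ?_, ?_⟩
    · exact hbig _ _ (by have := (hlen _ (hz 0)).1; omega) h1
    · intro l
      simp only [hM, hk, Fin.snoc_castSucc]
      apply hbig
      · have := (hlen _ (hz l.castSucc)).2
        have := (hlen _ (hz l.succ)).1
        omega
      · rw [Nat.cast_add]; exact h2 l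
    · simp only [hM, hk, Fin.snoc_last]
      exact hbig _ _ (by have := (hlen _ (hz (Fin.last L))).2; omega) h3
  obtain ⟨l1, h1, h2, h3⟩ := build h.ab h.pos h.pown L x M E hx (hV x hx rfl (fun _ => rfl) rfl)
  obtain ⟨l2, h4, h5, h6⟩ := build h.ab h.pos h.pown L y M E hy
    (hV y hy h0.symm (fun l => (hl l).symm) hlast.symm)
  have h7 : l1 = l2 := h.code l1 l2 h1 h4 (by rw [h2, h5])
  rw [h7, h6] at h3
  have h8 := List.ofFn_injective h3
  funext l
  exact (wd_inj h.ab (congrFun h8 l)).symm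

end Pool.Agent.Helper98.TS
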